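import Mathlib

/-! Multigraphs with bounded weight on `s`-sets: the sum bound and the Turán multigraph. -/

namespace Pool.Agent.H120Z.MG

open Finset

section general

variable {V : Type} [DecidableEq V]

def ed (S : Finset V) : Finset (Sym2 V) := S.sym2.filter (fun e => ¬ e.IsDiag)

lemma mk_mem_ed {S : Finset V} {u v : V} : s(u, v) ∈ ed S ↔ u ∈ S ∧ v ∈ S ∧ u ≠ v := by
  simp [ed, and_assoc]

lemma sum_ed_insert {M : Type} [AddCommMonoid M] (f : Sym2 V → M) {S : Finset V} {v : V}
    (hv : v ∉ S) : ∑ e ∈ ed (insert v S), f e = ∑ e ∈ ed S, f e + ∑ u ∈ S, f s(v, u) := by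
  have h1 : ed (insert v S) = ed S ∪ S.image (fun u => s(v, u)) := by
    ext e
    induction e using Sym2.ind with
    | _ a b =>
      simp only [mk_mem_ed, mem_insert, mem_union, mem_image, Sym2.eq_iff]
      constructor
      · rintro ⟨rfl | ha, rfl | hb, hab⟩
        · exact absurd rfl hab
        · exact Or.inr ⟨b, hb, Or.inl ⟨rfl, rfl⟩⟩
        · exact Or.inr ⟨a, ha, Or.inr ⟨rfl, rfl⟩⟩
        · exact Or.inl ⟨ha, hb, hab⟩
      · rintro (⟨ha, hb, hab⟩ | ⟨u, hu, ⟨rfl, rfl⟩ | ⟨rfl, rfl⟩⟩)
        · exact ⟨Or.inr ha, Or.inr hb, hab⟩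
        · exact ⟨Or.inl rfl, Or.inr hu, fun h => hv (h ▸ hu)⟩
        · exact ⟨Or.inr hu, Or.inl rfl, fun h => hv (h ▸ hu)⟩
  have h2 : Disjoint (ed S) (S.image (fun u => s(v, u))) := by
    rw [disjoint_left]
    intro e he he'
    obtain ⟨u, -, rfl⟩ := mem_image.1 he'
    exact hv (mk_mem_ed.1 he).1
  rw [h1, sum_union h2, sum_image]
  intro a _ b _ h
  exact Sym2.congr_right.1 h

lemma choose_two_succ (n : ℕ) : (n + 1).choose 2 = n.choose 2 + n := by
  rw [Nat.choose_succ_succ' n 1, Nat.choose_one_right, add_comm]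

lemma card_ed (S : Finset V) : (ed S).card = S.card.choose 2 := by
  induction S using Finset.induction_on with
  | empty => simp [ed]
  | insert v S hv ih =>
    rw [card_eq_sum_ones, sum_ed_insert _ hv, ← card_eq_sum_ones, ← card_eq_sum_ones, ih,
      card_insert_of_notMem hv, choose_two_succ]

/-- edges of the Turán graph -/
def T (r s : ℕ) : ℕ := ∑ i ∈ range s, (i - i / r)

lemma step_int {r a i w : ℕ} (hr : 1 ≤ r) (h : (a * r + (r - 1)) * i < r * w) :
    a * i + (i - i / r) + (if r ∣ i then 1 else 0) ≤ w := by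
  obtain ⟨r, rfl⟩ : ∃ r', r = r' + 1 := ⟨r - 1, by omega⟩
  have h1 := Nat.div_add_mod i (r + 1)
  have h2 := Nat.mod_lt i (show r + 1 > 0 by omega)
  have h3 : i / (r + 1) ≤ i := Nat.div_le_self _ _
  set t := i / (r + 1)
  set ρ := i % (r + 1)
  obtain ⟨d, hd⟩ : ∃ d, i = t + d := ⟨i - t, by omega⟩
  have h4 : i - t = d := by omega
  rw [h4]
  simp only [Nat.add_sub_cancel] at h
  split_ifs with hdiv
  · have h5 : ρ = 0 := Nat.mod_eq_zero_of_dvd hdiv
    have h6 : (r + 1) * (a * i + d) < (r + 1) * w := by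
      have : (r + 1) * (a * i + d) = (a * (r + 1) + r) * i := by
        have : (r + 1) * d = r * i := by nlinarith
        nlinarith
      omega
    exact Nat.lt_of_mul_lt_mul_left h6
  · have h6 : (r + 1) * (a * i + d) < (r + 1) * (w + 1) := by
      have : (r + 1) * (a * i + d) = (a * (r + 1) + r) * i + ρ := by
        have : (r + 1) * d = r * i + ρ := by nlinarith
        nlinarith
      nlinarith
    have := Nat.lt_of_mul_lt_mul_left h6
    omega

lemma greedy {r a s q : ℕ} (hr : 1 ≤ r) (w : Sym2 V → ℕ) (hw : ∀ u v, u ≠ v → w s(u, v) ≤ q)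
    (A : Finset V) (hA : A.Nonempty)
    (hdeg : ∀ u ∈ A, (a * r + (r - 1)) * A.card + r * s * q < r * ∑ v ∈ A.erase u, w s(u, v)) :
    ∀ j, j < s → ∃ S ⊆ A, S.card = j + 1 ∧
      a * (j + 1).choose 2 + T r (j + 1) + j / r ≤ ∑ e ∈ ed S, w e := by
  intro j
  induction j with
  | zero =>
    intro _
    obtain ⟨u, hu⟩ := hA
    exact ⟨{u}, by simpa using hu, by simp, by simp [T]⟩
  | succ j ih =>
    intro hj
    obtain ⟨S, hSA, hS, hsum⟩ := ih (by omega)
    have hex : ∃ v ∈ A \ S, (a * r + (r - 1)) * (j + 1) < r * ∑ u ∈ S, w s(v, u) := by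
      by_contra hno
      push Not at hno
      set M := a * r + (r - 1)
      have h1 : r * ∑ v ∈ A \ S, ∑ u ∈ S, w s(v, u) ≤ A.card * (M * (j + 1)) := by
        rw [mul_sum]
        refine (sum_le_card_nsmul _ _ _ hno).trans ?_
        rw [smul_eq_mul]
        exact Nat.mul_le_mul_right _ (card_le_card sdiff_subset)
      have h2 : ∀ u ∈ S, M * A.card + 1 ≤ r * ∑ v ∈ A \ S, w s(v, u) := by
        intro u hu
        have h3 := hdeg u (hSA hu)
        have h4 : ∑ v ∈ A.erase u, w s(u, v) ≤ ∑ v ∈ A \ S, w s(v, u) + s * q := by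
          have h5 : A.erase u ⊆ (A \ S) ∪ S.erase u := by
            intro x hx
            rw [mem_erase] at hx
            by_cases hxS : x ∈ S
            · exact mem_union_right _ (mem_erase.2 ⟨hx.1, hxS⟩)
            · exact mem_union_left _ (mem_sdiff.2 ⟨hx.2, hxS⟩)
          refine (sum_le_sum_of_subset h5).trans ?_
          rw [sum_union (disjoint_of_subset_right (erase_subset u S) sdiff_disjoint)]
          refine add_le_add (le_of_eq (sum_congr rfl fun v _ => by rw [Sym2.eq_swap])) ?_
          refine (sum_le_card_nsmul _ _ q fun v hv => hw u v (mem_erase.1 hv).1.symm).trans ?_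
          rw [smul_eq_mul]
          exact Nat.mul_le_mul_right _ (card_erase_le.trans (by omega))
        have h6 := Nat.mul_le_mul_left r h4
        rw [mul_add, ← mul_assoc] at h6
        omega
      have h7 := card_nsmul_le_sum _ _ _ h2
      rw [← mul_sum, sum_comm, hS, smul_eq_mul] at h7
      nlinarith
    obtain ⟨v, hv, hvw⟩ := hex
    rw [mem_sdiff] at hv
    refine ⟨insert v S, insert_subset hv.1 hSA, by rw [card_insert_of_notMem hv.2, hS], ?_⟩
    rw [sum_ed_insert _ hv.2]
    have h8 := step_int hr hvw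
    have h9 : T r (j + 1 + 1) = T r (j + 1) + (j + 1 - (j + 1) / r) := sum_range_succ _ _
    have h10 : (j + 1) / r = j / r + if r ∣ j + 1 then 1 else 0 := Nat.succ_div
    rw [h9, choose_two_succ (j + 1), mul_add]
    generalize (j + 1 - (j + 1) / r) = d at *
    generalize (if r ∣ j + 1 then 1 else 0) = e at *
    rw [h10]
    omega

lemma sum_bound {r a s k : ℕ} (hr : 1 ≤ r) (hs : 1 ≤ s) (hk : k + 1 ≤ (s - 1) / r)
    (w : Sym2 V → ℕ) (q : ℕ) (hq : q = a * s.choose 2 + T r s + k)
    (hw : ∀ u v, u ≠ v → w s(u, v) ≤ q)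
    (hS : ∀ S : Finset V, S.card = s → ∑ e ∈ ed S, w e ≤ q) (N : ℕ) :
    ∀ A : Finset V, A.card = N →
      2 * (r * ∑ e ∈ ed A, w e) ≤ (a * r + (r - 1)) * (N * (N + 1)) + 2 * (r * s * q) * N := by
  induction N with
  | zero => intro A hA; rw [card_eq_zero.1 hA]; simp [ed]
  | succ N ih =>
    intro A hA
    have hne : A.Nonempty := card_pos.1 (by omega)
    have hex : ∃ u ∈ A, r * ∑ v ∈ A.erase u, w s(u, v) ≤
        (a * r + (r - 1)) * A.card + r * s * q := by
      by_contra hno
      push Not at hno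
      obtain ⟨S, -, hS1, hS2⟩ := greedy hr w hw A hne hno (s - 1) (by omega)
      rw [Nat.sub_add_cancel hs] at hS1 hS2
      have := hS S hS1
      omega
    obtain ⟨u, hu, hdeg⟩ := hex
    have h1 := ih (A.erase u) (by rw [card_erase_of_mem hu]; omega)
    have h2 := sum_ed_insert w (notMem_erase u A)
    rw [insert_erase hu] at h2
    rw [h2, hA] at *
    nlinarith

end general

lemma cnt (r : ℕ) (hr : 1 ≤ r) (n j : ℕ) (hj : j ≤ n) :
    (univ.filter (fun u : Fin n => u.val < j ∧ u.val % r ≠ j % r)).card = j - j / r := by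
  have h1 : (univ.filter (fun u : Fin n => u.val < j ∧ u.val % r ≠ j % r)).card =
      ((range j).filter (fun u => ¬ u ≡ j [MOD r])).card := by
    rw [← card_map Fin.valEmbedding]
    congr 1
    ext x
    simp only [mem_map, mem_filter, mem_univ, true_and, Fin.valEmbedding_apply, mem_range,
      Nat.ModEq]
    exact ⟨by rintro ⟨u, hu, rfl⟩; exact hu, fun h => ⟨⟨x, by omega⟩, h, rfl⟩⟩
  have h2 := Nat.count_modEq_card j (show 0 < r from hr) j
  rw [Nat.count_eq_card_filter_range, if_neg (lt_irrefl _), add_zero] at h2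
  have h3 := card_filter_add_card_filter_not (s := range j) (fun u => u ≡ j [MOD r])
  rw [card_range] at h3
  omega

lemma cardT (r : ℕ) (hr : 1 ≤ r) (s : ℕ) :
    ((univ : Finset (Fin s × Fin s)).filter
      (fun p => p.1 < p.2 ∧ p.1.val % r ≠ p.2.val % r)).card = T r s := by
  rw [card_filter, Fintype.sum_prod_type_right, T, ← Fin.sum_univ_eq_sum_range (fun i => i - i / r)]
  refine sum_congr rfl fun y _ => ?_
  rw [← cnt r hr s y y.2.le, card_filter]
  rfl

/-- indicator of a crossing pair -/
def cr (r n : ℕ) : Sym2 (Fin n) → ℕ :=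
  Sym2.lift ⟨fun u v => if u.val % r = v.val % r then 0 else 1, fun u v => by simp [eq_comm]⟩

lemma cr_mk (r n : ℕ) (u v : Fin n) : cr r n s(u, v) = if u.val % r = v.val % r then 0 else 1 := rfl

lemma cr_le_one (r n : ℕ) (e : Sym2 (Fin n)) : cr r n e ≤ 1 := by
  induction e using Sym2.ind with
  | _ u v => rw [cr_mk]; split_ifs <;> omega

lemma cross_le (r : ℕ) (hr : 1 ≤ r) (n N : ℕ) :
    ∀ S : Finset (Fin n), S.card = N → ∑ e ∈ ed S, cr r n e ≤ T r N := by
  induction N with
  | zero => intro S hS; rw [card_eq_zero.1 hS]; simp [ed]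
  | succ N ih =>
    intro S hS
    obtain ⟨y, -, hy⟩ := exists_lt_card_fiber_of_mul_lt_card_of_maps_to (s := S) (t := range r)
      (f := fun u : Fin n => u.val % r) (n := N / r)
      (fun u _ => mem_range.2 (Nat.mod_lt _ hr))
      (by rw [card_range, hS]; have := Nat.mul_div_le N r; omega)
    obtain ⟨v, hv⟩ : (S.filter (fun u : Fin n => u.val % r = y)).Nonempty :=
      card_pos.1 (lt_of_le_of_lt (Nat.zero_le _) hy)
    have hv' := mem_filter.1 hv
    have h1 := ih (S.erase v) (by rw [card_erase_of_mem hv'.1]; omega)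
    have h2 := sum_ed_insert (cr r n) (notMem_erase v S)
    rw [insert_erase hv'.1] at h2
    have h3 : ∑ u ∈ S.erase v, cr r n s(v, u) =
        ((S.erase v).filter (fun u : Fin n => ¬ u.val % r = y)).card := by
      rw [card_filter]
      refine sum_congr rfl fun u _ => ?_
      rw [cr_mk, hv'.2]
      by_cases h : y = u.val % r
      · rw [if_pos h, if_neg (by simp [h])]
      · rw [if_neg h, if_pos (fun h' => h h'.symm)]
    have h4 := card_filter_add_card_filter_not (s := S.erase v) (fun u : Fin n => u.val % r = y)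
    rw [card_erase_of_mem hv'.1, filter_erase, card_erase_of_mem hv, hS] at h4
    have h5 : T r (N + 1) = T r N + (N - N / r) := sum_range_succ _ _
    omega

lemma cross_univ (r : ℕ) (hr : 1 ≤ r) (n : ℕ) : ∑ e ∈ ed (univ : Finset (Fin n)), cr r n e = T r n := by
  have h : ∀ j ≤ n, ∑ e ∈ ed (univ.filter (fun u : Fin n => u.val < j)), cr r n e = T r j := by
    intro j
    induction j with
    | zero => intro _; simp [ed, T]
    | succ j ih =>
      intro hj
      have h1 : univ.filter (fun u : Fin n => u.val < j + 1) =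
          insert ⟨j, hj⟩ (univ.filter (fun u : Fin n => u.val < j)) := by
        ext u
        simp only [mem_filter, mem_univ, true_and, mem_insert, Fin.ext_iff]
        omega
      rw [h1, sum_ed_insert _ (by simp), ih (by omega), T, T, sum_range_succ,
        ← cnt r hr n j (by omega), ← filter_filter, card_filter]
      congr 1
      refine sum_congr rfl fun u _ => ?_
      rw [cr_mk]
      by_cases h : j % r = u.val % r
      · rw [if_pos h, if_neg (by simp [h])]
      · rw [if_neg h, if_pos (fun h' => h h'.symm)]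
  have := h n le_rfl
  rwa [filter_true_of_mem fun u _ => u.2] at this

lemma T_ge (r : ℕ) (n : ℕ) : (r - 1) * n.choose 2 ≤ r * T r n := by
  induction n with
  | zero => simp
  | succ n ih =>
    have h5 : T r (n + 1) = T r n + (n - n / r) := sum_range_succ _ _
    rw [h5, choose_two_succ, mul_add, mul_add]
    have h1 := Nat.mul_div_le n r
    have h2 : (r - 1) * n ≤ r * (n - n / r) := by
      rw [Nat.mul_sub, Nat.sub_mul, one_mul]; omega
    omega

end Pool.Agent.H120Z.MG
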