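import Pool.Agent.H120Z.MG.Basic

namespace Pool.Agent.H120Z.MG

open Finset Filter Topology

lemma chord {a : ℕ} (ha : 1 ≤ a) (w : ℕ) :
    (w : ℝ) ≤ a * (((a : ℝ) + 1) / a) ^ ((w : ℝ) - a) := by
  have ha' : (1 : ℝ) ≤ a := by exact_mod_cast ha
  have ha0 : (0 : ℝ) < a := by linarith
  rcases le_total a w with h | h
  · obtain ⟨d, rfl⟩ := Nat.exists_eq_add_of_le h
    have h1 : ((a + d : ℕ) : ℝ) - a = (d : ℝ) := by push_cast; ring
    have h2 : ((a : ℝ) + 1) / a = 1 + 1 / a := by field_simp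
    rw [h1, Real.rpow_natCast, h2]
    have h3 := one_add_mul_le_pow (a := 1 / (a : ℝ)) (by
      have : (0 : ℝ) ≤ 1 / a := by positivity
      linarith) d
    calc ((a + d : ℕ) : ℝ) = a * (1 + d * (1 / (a : ℝ))) := by push_cast; field_simp
      _ ≤ _ := by gcongr
  · obtain ⟨d, rfl⟩ := Nat.exists_eq_add_of_le h
    set a : ℝ := ((w + d : ℕ) : ℝ) with hadef
    have h1 : (w : ℝ) - a = -(d : ℝ) := by rw [hadef]; push_cast; ring
    have h2 : ((a + 1) / a)⁻¹ = 1 + -(1 / (a + 1)) := by field_simp; ring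
    rw [h1, Real.rpow_neg (by positivity), Real.rpow_natCast, ← inv_pow, h2]
    have h3 := one_add_mul_le_pow (a := -(1 / (a + 1))) (by
      have : 1 / (a + 1) ≤ 1 := by rw [div_le_one (by positivity)]; linarith
      linarith) d
    have h4 : (w : ℝ) ≤ a * (1 + d * -(1 / (a + 1))) := by
      have h5 : a * (1 / (a + 1)) ≤ 1 := by
        rw [mul_one_div, div_le_one (by positivity)]; linarith
      have h6 : (0 : ℝ) ≤ d := by positivity
      nlinarith
    exact h4.trans (by gcongr)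

/-- the set of products of `(s, q)`-multigraphs on `Fin n` -/
def PS (n s q : ℕ) : Set ℝ :=
  {x : ℝ | ∃ w : Sym2 (Fin n) → ℕ, (∀ S : Finset (Fin n), S.card = s → ∑ e ∈ ed S, w e ≤ q) ∧
    x = ∏ e ∈ ed (univ : Finset (Fin n)), (w e : ℝ)}

lemma card_ed_univ (n : ℕ) : (ed (univ : Finset (Fin n))).card = n.choose 2 := by
  rw [card_ed, card_univ, Fintype.card_fin]

lemma total_le {r a s k n : ℕ} (hr : 1 ≤ r) (hs : 2 ≤ s) (hk : k + 1 ≤ (s - 1) / r) (hn : s ≤ n)
    (w : Sym2 (Fin n) → ℕ)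
    (hS : ∀ S : Finset (Fin n), S.card = s → ∑ e ∈ ed S, w e ≤ a * s.choose 2 + T r s + k) :
    ((∑ e ∈ ed (univ : Finset (Fin n)), w e : ℕ) : ℝ) ≤
      (a + ((r : ℝ) - 1) / r + (2 * (a + 1) + 2 * s * (a * s.choose 2 + T r s + k : ℕ)) /
        ((n : ℝ) - 1)) * n.choose 2 := by
  set q := a * s.choose 2 + T r s + k with hq
  have hw : ∀ u v : Fin n, u ≠ v → w s(u, v) ≤ q := by
    intro u v huv
    obtain ⟨S, hS1, -, hS2⟩ := exists_subsuperset_card_eq (s := {u, v}) (t := univ) (n := s)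
      (subset_univ _) (by rw [card_pair huv]; exact hs) (by simpa using hn)
    refine le_trans ?_ (hS S hS2)
    exact single_le_sum (f := w) (fun _ _ => Nat.zero_le _)
      (mk_mem_ed.2 ⟨hS1 (by simp), hS1 (by simp), huv⟩)
  have h1 := sum_bound hr (by omega) hk w q hq hw hS n univ (by simp)
  have h2 : (2 : ℝ) * (r * ((∑ e ∈ ed (univ : Finset (Fin n)), w e : ℕ) : ℝ)) ≤
      (a * r + ((r : ℝ) - 1)) * (n * (n + 1)) + 2 * (r * s * q) * n := by
    have h3 : ((r - 1 : ℕ) : ℝ) = (r : ℝ) - 1 := by rw [Nat.cast_sub hr]; simp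
    rw [← h3]
    exact_mod_cast h1
  have hr' : (1 : ℝ) ≤ r := by exact_mod_cast hr
  have hn' : (2 : ℝ) ≤ n := by exact_mod_cast hs.trans hn
  rw [Nat.cast_choose_two]
  have h4 : (0 : ℝ) < (n : ℝ) - 1 := by linarith
  have h5 : (a + ((r : ℝ) - 1) / r + (2 * (a + 1) + 2 * s * (q : ℝ)) / ((n : ℝ) - 1)) *
      (n * (n - 1) / 2) = ((a * r + ((r : ℝ) - 1)) * (n * (n - 1)) + 2 * (a + 1) * r * n +
        2 * (r * s * q) * n) / (2 * r) := by
    field_simp
    ring
  rw [h5, le_div_iff₀ (by positivity)]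
  nlinarith

lemma turan_mem {r s : ℕ} (a k n : ℕ) (hr : 1 ≤ r) :
    ∏ e ∈ ed (univ : Finset (Fin n)), ((a + cr r n e : ℕ) : ℝ) ∈
      PS n s (a * s.choose 2 + T r s + k) := by
  refine ⟨fun e => a + cr r n e, fun S hS => ?_, rfl⟩
  rw [sum_add_distrib, sum_const, card_ed, hS, smul_eq_mul, mul_comm]
  have := cross_le r hr n s S hS
  omega

lemma L_eq {r a : ℕ} (hr : 1 ≤ r) (ha : 1 ≤ a) :
    (a : ℝ) ^ ((1 : ℝ) / r) * ((a : ℝ) + 1) ^ (((r : ℝ) - 1) / r) =
      a * (((a : ℝ) + 1) / a) ^ (((r : ℝ) - 1) / r) := by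
  have ha0 : (0 : ℝ) < a := by exact_mod_cast ha
  have hr0 : (0 : ℝ) < r := by exact_mod_cast hr
  rw [Real.div_rpow (by positivity) ha0.le, mul_div_assoc', eq_div_iff (by positivity),
    mul_right_comm, ← Real.rpow_add ha0]
  congr 1
  rw [show (1 : ℝ) / r + (r - 1) / r = 1 by field_simp; ring, Real.rpow_one]

theorem main (r a s : ℕ) (hr : 1 ≤ r) (hs : 2 * r + 1 ≤ s) (k : ℕ) (hk : k + 1 ≤ (s - 1) / r) :
    Tendsto (fun n : ℕ => (sSup (PS n s (a * s.choose 2 + T r s + k))) ^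
      ((1 : ℝ) / (n.choose 2 : ℝ))) atTop
      (𝓝 ((a : ℝ) ^ ((1 : ℝ) / r) * ((a : ℝ) + 1) ^ (((r : ℝ) - 1) / r))) := by
  set q := a * s.choose 2 + T r s + k with hq
  have hr0 : (0 : ℝ) < r := by exact_mod_cast hr
  set δ : ℕ → ℝ := fun n => (2 * (a + 1) + 2 * s * (q : ℝ)) / ((n : ℝ) - 1) with hδ
  have hδ0 : Tendsto δ atTop (𝓝 0) :=
    tendsto_const_nhds.div_atTop (tendsto_atTop_add_const_right _ (-1) tendsto_natCast_atTop_atTop)
  have hC : ∀ n, s ≤ n → (0 : ℝ) < n.choose 2 := fun n hn => by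
    exact_mod_cast Nat.choose_pos (by omega)
  rcases Nat.eq_zero_or_pos a with rfl | ha
  · have h0 : ((0 : ℕ) : ℝ) ^ ((1 : ℝ) / r) * (((0 : ℕ) : ℝ) + 1) ^ (((r : ℝ) - 1) / r) = 0 := by
      rw [Nat.cast_zero, Real.zero_rpow (by positivity), zero_mul]
    rw [h0]
    refine tendsto_const_nhds.congr' ?_
    filter_upwards [eventually_ge_atTop s, hδ0.eventually_lt_const (show (0 : ℝ) < 1 / r by
      positivity)] with n hn hn2
    have h1 : ∀ x ∈ PS n s q, x = 0 := by
      rintro x ⟨w, hw, rfl⟩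
      by_contra hne
      have h2 : ∀ e ∈ ed (univ : Finset (Fin n)), 1 ≤ w e := by
        intro e he
        by_contra h
        exact hne (prod_eq_zero he (by simp; omega))
      have h3 := card_nsmul_le_sum _ _ _ h2
      rw [card_ed_univ, smul_eq_mul, mul_one] at h3
      have h4 : (n.choose 2 : ℝ) ≤ ((∑ e ∈ ed (univ : Finset (Fin n)), w e : ℕ) : ℝ) := by
        exact_mod_cast h3
      have h5 := h4.trans (total_le hr (by omega) hk hn w hw)
      have h6 : ((r : ℝ) - 1) / r = 1 - 1 / r := by field_simp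
      rw [h6] at h5
      have h7 := hC n hn
      change _ ≤ (((0 : ℕ) : ℝ) + (1 - 1 / r) + δ n) * _ at h5
      rw [Nat.cast_zero] at h5
      nlinarith
    have h8 : sSup (PS n s q) = 0 :=
      le_antisymm (Real.sSup_le (fun x hx => (h1 x hx).le) le_rfl)
        (Real.sSup_nonneg fun x hx => (h1 x hx).ge)
    rw [h8, Real.zero_rpow (by have := hC n hn; positivity)]
  · have ha0 : (0 : ℝ) < a := by exact_mod_cast ha
    set ρ : ℝ := ((a : ℝ) + 1) / a with hρ
    have hρ1 : 1 ≤ ρ := by rw [hρ, le_div_iff₀ ha0]; linarith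
    have hρ0 : 0 < ρ := by linarith
    rw [L_eq hr ha]
    have hup : Tendsto (fun n => (a : ℝ) * ρ ^ (((r : ℝ) - 1) / r + δ n)) atTop
        (𝓝 ((a : ℝ) * ρ ^ (((r : ℝ) - 1) / r))) := by
      refine Tendsto.const_mul _ ?_
      have h1 : Tendsto (fun n => ((r : ℝ) - 1) / r + δ n) atTop (𝓝 (((r : ℝ) - 1) / r)) := by
        simpa using hδ0.const_add (((r : ℝ) - 1) / r)
      exact ((Real.continuous_const_rpow hρ0.ne').tendsto _).comp h1
    have hbd : ∀ n, s ≤ n → ∀ x ∈ PS n s q,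
        x ≤ ((a : ℝ) * ρ ^ (((r : ℝ) - 1) / r + δ n)) ^ (n.choose 2 : ℝ) := by
      rintro n hn x ⟨w, hw, rfl⟩
      have h1 := total_le hr (by omega) hk hn w hw
      change _ ≤ (a + ((r : ℝ) - 1) / r + δ n) * _ at h1
      calc ∏ e ∈ ed (univ : Finset (Fin n)), (w e : ℝ)
          ≤ ∏ e ∈ ed (univ : Finset (Fin n)), (a * ρ ^ ((w e : ℝ) - a)) :=
            prod_le_prod (fun _ _ => by positivity) fun e _ => chord ha _
        _ = a ^ (n.choose 2 : ℝ) * ρ ^ (((∑ e ∈ ed (univ : Finset (Fin n)), w e : ℕ) : ℝ) -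
              a * n.choose 2) := by
            rw [prod_mul_distrib, prod_const, card_ed_univ, Real.rpow_natCast,
              ← Real.rpow_sum_of_pos hρ0, sum_sub_distrib, sum_const, card_ed_univ]
            push_cast
            simp [mul_comm]
        _ ≤ a ^ (n.choose 2 : ℝ) * ρ ^ ((((r : ℝ) - 1) / r + δ n) * n.choose 2) := by
            gcongr
            linarith
        _ = _ := by rw [Real.mul_rpow ha0.le (by positivity), Real.rpow_mul hρ0.le]
    refine tendsto_of_tendsto_of_tendsto_of_le_of_le' tendsto_const_nhds hup ?_ ?_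
    · filter_upwards [eventually_ge_atTop s] with n hn
      have h1 := le_csSup ⟨_, hbd n hn⟩ (turan_mem (s := s) a k n hr)
      have h2 : ((a : ℝ) * ρ ^ (((r : ℝ) - 1) / r)) ^ (n.choose 2 : ℝ) ≤
          ∏ e ∈ ed (univ : Finset (Fin n)), ((a + cr r n e : ℕ) : ℝ) := by
        have h3 : ∀ e ∈ ed (univ : Finset (Fin n)), ((a + cr r n e : ℕ) : ℝ) =
            a * ρ ^ (cr r n e) := by
          intro e _
          have := cr_le_one r n e
          interval_cases cr r n e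
          · simp
          · rw [hρ]; push_cast; field_simp
        rw [prod_congr rfl h3, prod_mul_distrib, prod_const, card_ed_univ, prod_pow_eq_pow_sum,
          cross_univ r hr, Real.mul_rpow ha0.le (by positivity), ← Real.rpow_mul hρ0.le,
          Real.rpow_natCast, ← Real.rpow_natCast ρ]
        gcongr
        rw [div_mul_eq_mul_div, div_le_iff₀ hr0]
        have h4 : ((r - 1 : ℕ) : ℝ) = (r : ℝ) - 1 := by rw [Nat.cast_sub hr]; simp
        rw [← h4, mul_comm _ (r : ℝ)]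
        exact_mod_cast T_ge r n
      have h5 := Real.rpow_le_rpow (by positivity) (h2.trans h1)
        (show 0 ≤ (1 : ℝ) / (n.choose 2 : ℝ) by positivity)
      rwa [← Real.rpow_mul (by positivity), mul_one_div_cancel (hC n hn).ne', Real.rpow_one] at h5
    · filter_upwards [eventually_ge_atTop s] with n hn
      have h1 := Real.sSup_le (hbd n hn) (by positivity)
      have h0 : 0 ≤ sSup (PS n s q) := Real.sSup_nonneg (by
        rintro x ⟨w, -, rfl⟩; positivity)
      have h5 := Real.rpow_le_rpow h0 h1 (show 0 ≤ (1 : ℝ) / (n.choose 2 : ℝ) by positivity)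
      rwa [← Real.rpow_mul (by positivity), mul_one_div_cancel (hC n hn).ne', Real.rpow_one] at h5

end Pool.Agent.H120Z.MG
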